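import Pool.Agent.H83.G.Targets1

/-!
# Fourier inversion
-/

set_option autoImplicit false

namespace Pool.Agent.H49.G

open MeasureTheory Set Pool.Agent.H83.G
open scoped ENNReal NNReal RealInnerProductSpace FourierTransform SchwartzMap

theorem e_eq (x : ℝ) : e x = Complex.exp (((2 * Real.pi * x : ℝ) : ℂ) * Complex.I) := rfl

theorem pf_IVY (hTRY : T_TRY) : T_IVY := by
  intro m M hM hc
  obtain ⟨Φ, hΦ, hip⟩ := hTRY m
  have hΦe : MeasurableEmbedding Φ := Φ.toHomeomorph.measurableEmbedding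
  let M' : EuclideanSpace ℝ (Fin (m + 1)) → ℂ := fun x => M (Φ x)
  have hM' : ContDiff ℝ (⊤ : ℕ∞) M' := hM.comp Φ.contDiff
  have hc' : HasCompactSupport M' := hc.comp_homeomorph Φ.toHomeomorph
  let f : 𝓢(EuclideanSpace ℝ (Fin (m + 1)), ℂ) := hc'.toSchwartzMap hM'
  have hf : ∀ x, f x = M (Φ x) := fun _ => rfl
  have hTY : ∀ x, TY M (Φ x) = (𝓕⁻ f) x := by
    intro x
    rw [SchwartzMap.fourierInv_coe, Real.fourierInv_eq']
    unfold TY
    rw [← hΦ.integral_comp hΦe]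
    refine integral_congr_ae (Filter.Eventually.of_forall fun ξ => ?_)
    change e ((Φ x).1 * (Φ ξ).1 + ⟪(Φ x).2, (Φ ξ).2⟫) * M (Φ ξ) =
      Complex.exp (((2 * Real.pi * ⟪ξ, x⟫ : ℝ) : ℂ) * Complex.I) * M (Φ ξ)
    rw [hip, e_eq, real_inner_comm]
  have hcomp : (fun x => TY M (Φ x)) = fun x => (𝓕⁻ f) x := funext hTY
  constructor
  · have h1 : Integrable (fun x => TY M (Φ x)) := by
      rw [hcomp]
      exact (𝓕⁻ f).integrable
    exact (hΦ.integrable_comp_emb hΦe).1 h1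
  · intro ζ
    obtain ⟨ξ, rfl⟩ := Φ.surjective ζ
    rw [← hΦ.integral_comp hΦe]
    have h2 : (𝓕 (𝓕⁻ f)) ξ = f ξ := by
      rw [FourierTransform.fourier_fourierInv_eq]
    rw [SchwartzMap.fourier_coe, Real.fourier_eq'] at h2
    rw [← hf, ← h2]
    refine integral_congr_ae (Filter.Eventually.of_forall fun x => ?_)
    change e (-((Φ x).1 * (Φ ξ).1 + ⟪(Φ x).2, (Φ ξ).2⟫)) * TY M (Φ x) =
      Complex.exp (((-2 * Real.pi * ⟪x, ξ⟫ : ℝ) : ℂ) * Complex.I) * (𝓕⁻ f) x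
    rw [hip, hTY, e_eq]
    have h3 : 2 * Real.pi * -⟪x, ξ⟫ = -2 * Real.pi * ⟪x, ξ⟫ := by ring
    rw [h3]

end Pool.Agent.H49.G
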