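import Pool.Agent.H83.G.Targets1

/-!
# Local constancy
-/

set_option autoImplicit false

namespace Pool.Agent.H49.G.LCN

open MeasureTheory Set Pool.Agent.H83.G
open scoped ENNReal NNReal RealInnerProductSpace

theorem norm_e (x : ℝ) : ‖e x‖ = 1 := by
  unfold e
  exact Complex.norm_exp_ofReal_mul_I _

theorem e_add (x y : ℝ) : e (x + y) = e x * e y := by
  unfold e
  rw [← Complex.exp_add]
  congr 1
  push_cast
  ring

theorem continuous_e : Continuous e := by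
  unfold e
  fun_prop

theorem measurable_wt {m : ℕ} (N : ℕ) : Measurable (wt N : Z m → ℝ) := by
  unfold wt
  fun_prop

theorem wt_nonneg {m : ℕ} (N : ℕ) (z : Z m) : 0 ≤ wt N z := by
  unfold wt
  positivity

theorem wt_mono {m : ℕ} {N N' : ℕ} (h : N ≤ N') (z : Z m) : wt N' z ≤ wt N z := by
  unfold wt
  apply inv_anti₀ (by positivity)
  exact pow_le_pow_right₀ (by linarith [norm_nonneg z]) h

theorem wt_neg {m : ℕ} (N : ℕ) (z : Z m) : wt N (-z) = wt N z := by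
  unfold wt
  rw [norm_neg]

/-- Hölder -/
theorem hold {α : Type} [MeasurableSpace α] (μ : Measure α) (f : α → ℝ≥0∞) (hf : AEMeasurable f μ)
    (P : ℝ) (hP : 1 ≤ P) :
    (∫⁻ x, f x ∂μ) ^ P ≤ (∫⁻ x, f x ^ P ∂μ) * (μ univ) ^ (P - 1) := by
  rcases eq_or_lt_of_le hP with h | h
  · rw [← h]
    simp
  · have hpq : P.HolderConjugate (P / (P - 1)) := Real.HolderConjugate.conjExponent h
    have h1 := ENNReal.lintegral_mul_le_Lp_mul_Lq μ hpq hf (g := fun _ => 1) aemeasurable_const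
    have h2 : ∫⁻ x, (f * (fun _ => 1 : α → ℝ≥0∞)) x ∂μ = ∫⁻ x, f x ∂μ :=
      lintegral_congr fun x => by rw [Pi.mul_apply, mul_one]
    rw [h2] at h1
    have h3 : ∫⁻ _x, (1 : ℝ≥0∞) ^ (P / (P - 1)) ∂μ = μ univ := by simp
    rw [h3] at h1
    have hP0 : 0 < P := by linarith
    calc (∫⁻ x, f x ∂μ) ^ P ≤ ((∫⁻ x, f x ^ P ∂μ) ^ (1 / P) * (μ univ) ^ (1 / (P / (P - 1)))) ^ P :=
          ENNReal.rpow_le_rpow h1 hP0.le
      _ = (∫⁻ x, f x ^ P ∂μ) * (μ univ) ^ (P - 1) := by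
          rw [ENNReal.mul_rpow_of_nonneg _ _ hP0.le, ← ENNReal.rpow_mul, ← ENNReal.rpow_mul]
          congr 1
          · rw [one_div, inv_mul_cancel₀ hP0.ne', ENNReal.rpow_one]
          · congr 1
            field_simp

theorem measurable_ph {m : ℕ} : Continuous (fun p : Z m × Z m => ph p.1 p.2) := by
  unfold ph
  fun_prop

theorem ph_sub {m : ℕ} (z z' ζ : Z m) : ph (z - z') ζ = ph z ζ + -(ph z' ζ) := by
  unfold ph
  simp only [Prod.fst_sub, Prod.snd_sub, inner_sub_left]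
  ring

/-- reproducing formula -/
theorem repro {m : ℕ} (hIVZ : T_IVZ) (G Φ : Z m → ℂ) (hG : TC G) (hΦ : TC Φ)
    (h : ∀ ζ, G ζ ≠ 0 → Φ ζ = 1) (z : Z m) :
    TF G z = ∫ z', TF Φ (z - z') * TF G z' := by
  obtain ⟨hI, hinv⟩ := hIVZ m G hG
  have hΦi : Integrable Φ := hΦ.1.continuous.integrable_of_hasCompactSupport hΦ.2
  have h1 : ∀ ζ, G ζ = Φ ζ * ∫ z', e (-(ph z' ζ)) * TF G z' := by
    intro ζ
    rw [hinv]
    by_cases h0 : G ζ = 0
    · rw [h0, mul_zero]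
    · rw [h ζ h0, one_mul]
  have hprod : Integrable (Function.uncurry fun ζ z' : Z m =>
      e (ph (z - z') ζ) * (Φ ζ * TF G z')) (volume.prod volume) := by
    have h2 : Integrable (fun p : Z m × Z m => Φ p.1 * TF G p.2) (volume.prod volume) :=
      hΦi.mul_prod hI
    refine h2.bdd_mul (c := 1) ?_ ?_
    · refine Continuous.aestronglyMeasurable ?_
      exact continuous_e.comp (measurable_ph.comp (by fun_prop :
        Continuous fun p : Z m × Z m => (z - p.2, p.1)))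
    · exact Filter.Eventually.of_forall fun p => (norm_e _).le
  have h3 : TF G z = ∫ ζ, ∫ z', e (ph (z - z') ζ) * (Φ ζ * TF G z') := by
    unfold TF
    refine integral_congr_ae (Filter.Eventually.of_forall fun ζ => ?_)
    change e (ph z ζ) * G ζ = ∫ z', e (ph (z - z') ζ) * (Φ ζ * TF G z')
    rw [h1 ζ, ← mul_assoc, ← integral_const_mul]
    refine integral_congr_ae (Filter.Eventually.of_forall fun z' => ?_)
    change e (ph z ζ) * Φ ζ * (e (-(ph z' ζ)) * TF G z') =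
      e (ph (z - z') ζ) * (Φ ζ * TF G z')
    rw [ph_sub, e_add]
    ring
  rw [h3, integral_integral_swap hprod]
  refine integral_congr_ae (Filter.Eventually.of_forall fun z' => ?_)
  change ∫ ζ, e (ph (z - z') ζ) * (Φ ζ * TF G z') = TF Φ (z - z') * TF G z'
  have h4 : TF Φ (z - z') = ∫ ζ, e (ph (z - z') ζ) * Φ ζ := rfl
  rw [h4, ← integral_mul_const]
  refine integral_congr_ae (Filter.Eventually.of_forall fun ζ => ?_)
  change e (ph (z - z') ζ) * (Φ ζ * TF G z') = e (ph (z - z') ζ) * Φ ζ * TF G z'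
  ring

/-- a cutoff function -/
theorem exists_cut (m : ℕ) (D : ℝ) : ∃ Φ : Z m → ℂ, TC Φ ∧ ∀ ζ, ‖ζ‖ ≤ D → Φ ζ = 1 := by
  let f : ContDiffBump (0 : Z m) := ⟨|D| + 1, |D| + 2, by positivity, by linarith⟩
  refine ⟨fun ζ => ((f ζ : ℝ) : ℂ), ⟨?_, ?_⟩, ?_⟩
  · exact Complex.ofRealCLM.contDiff.comp f.contDiff
  · exact f.hasCompactSupport.comp_left (g := fun x : ℝ => (x : ℂ)) (by simp)
  · intro ζ hζ
    have h1 : f ζ = 1 := f.one_of_mem_closedBall (by
      rw [mem_closedBall_zero_iff]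
      change ‖ζ‖ ≤ |D| + 1
      linarith [le_abs_self D])
    change ((f ζ : ℝ) : ℂ) = 1
    rw [h1]
    simp

theorem pf_LCN (hSCH : T_SCH) (hIVZ : T_IVZ) (hWT2 : T_WT2) : T_LCN := by
  intro m N D P hP
  obtain ⟨Φ, hΦ, hΦ1⟩ := exists_cut m D
  let N' := max N (m + 3)
  obtain ⟨C1, hC1, hk⟩ := (hSCH m Φ hΦ).2 N'
  obtain ⟨C2, hW, _⟩ := hWT2 m N' (le_max_right _ _)
  have hP0 : 0 ≤ P := by linarith
  have hP1 : 0 ≤ P - 1 := by linarith
  refine ⟨C1.toNNReal ^ P * C2 ^ (P - 1), ?_⟩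
  intro G hG hGD z
  have hrep := repro hIVZ G Φ hG hΦ (fun ζ hζ => hΦ1 ζ (hGD ζ hζ)) z
  have hmT : Measurable fun z' => ‖TF G z'‖ₑ := (hSCH m G hG).1.measurable.enorm
  have hmw : Measurable fun z' : Z m => ENNReal.ofReal (wt N' (z - z')) :=
    ((measurable_wt N').comp (measurable_const.sub measurable_id)).ennreal_ofReal
  have h1 : ‖TF G z‖ₑ ≤ ENNReal.ofReal C1 *
      ∫⁻ z', ‖TF G z'‖ₑ * ENNReal.ofReal (wt N' (z - z')) := by
    rw [hrep]
    refine (enorm_integral_le_lintegral_enorm _).trans ?_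
    have hcm : ∫⁻ z', ENNReal.ofReal C1 * (‖TF G z'‖ₑ * ENNReal.ofReal (wt N' (z - z'))) =
        ENNReal.ofReal C1 * ∫⁻ z', ‖TF G z'‖ₑ * ENNReal.ofReal (wt N' (z - z')) :=
      lintegral_const_mul _ (hmT.mul hmw)
    rw [← hcm]
    refine lintegral_mono fun z' => ?_
    change ‖TF Φ (z - z') * TF G z'‖ₑ ≤ _
    rw [enorm_mul]
    have h2 : ‖TF Φ (z - z')‖ₑ ≤ ENNReal.ofReal C1 * ENNReal.ofReal (wt N' (z - z')) := by
      rw [← ENNReal.ofReal_mul hC1.le, ← ofReal_norm]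
      exact ENNReal.ofReal_le_ofReal (hk _)
    calc ‖TF Φ (z - z')‖ₑ * ‖TF G z'‖ₑ ≤
        ENNReal.ofReal C1 * ENNReal.ofReal (wt N' (z - z')) * ‖TF G z'‖ₑ :=
          mul_le_mul_left h2 _
      _ = ENNReal.ofReal C1 * (‖TF G z'‖ₑ * ENNReal.ofReal (wt N' (z - z'))) := by ring
  let μ : Measure (Z m) := volume.withDensity fun z' => ENNReal.ofReal (wt N' (z - z'))
  have hμ : ∀ f : Z m → ℝ≥0∞, Measurable f → ∫⁻ z', f z' ∂μ =
      ∫⁻ z', f z' * ENNReal.ofReal (wt N' (z - z')) := by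
    intro f hf
    rw [lintegral_withDensity_eq_lintegral_mul _ hmw hf]
    refine lintegral_congr fun z' => ?_
    rw [Pi.mul_apply, mul_comm]
  have hμu : μ univ ≤ C2 := by
    have h2 := hW 1 z one_pos
    rw [withDensity_apply _ MeasurableSet.univ, setLIntegral_univ]
    have h3 : ∀ z' : Z m, wt N' (z - z') = wt N' ((1 : ℝ) • z' - z) := by
      intro z'
      rw [one_smul, ← wt_neg, neg_sub]
    simp only [h3]
    simpa using h2
  have h2 := hold μ (fun z' => ‖TF G z'‖ₑ) hmT.aemeasurable P hP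
  rw [hμ _ hmT, hμ _ (hmT.pow_const P)] at h2
  calc ‖TF G z‖ₑ ^ P ≤ (ENNReal.ofReal C1 *
        ∫⁻ z', ‖TF G z'‖ₑ * ENNReal.ofReal (wt N' (z - z'))) ^ P := ENNReal.rpow_le_rpow h1 hP0
    _ = ENNReal.ofReal C1 ^ P *
        (∫⁻ z', ‖TF G z'‖ₑ * ENNReal.ofReal (wt N' (z - z'))) ^ P :=
          ENNReal.mul_rpow_of_nonneg _ _ hP0
    _ ≤ ENNReal.ofReal C1 ^ P *
        ((∫⁻ z', ‖TF G z'‖ₑ ^ P * ENNReal.ofReal (wt N' (z - z'))) * C2 ^ (P - 1)) := by
          refine mul_le_mul_right (h2.trans ?_) _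
          exact mul_le_mul_right (ENNReal.rpow_le_rpow hμu hP1) _
    _ ≤ ENNReal.ofReal C1 ^ P *
        ((∫⁻ z', ‖TF G z'‖ₑ ^ P * ENNReal.ofReal (wt N (z - z'))) * C2 ^ (P - 1)) := by
          refine mul_le_mul_right (mul_le_mul_left (lintegral_mono fun z' => ?_) _) _
          exact mul_le_mul_right (ENNReal.ofReal_le_ofReal (wt_mono (le_max_left _ _) _)) _
    _ = _ := by
          rw [ENNReal.coe_mul, ENNReal.coe_rpow_of_nonneg _ hP0, ENNReal.coe_rpow_of_nonneg _ hP1]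
          change ENNReal.ofReal C1 ^ P * _ = ENNReal.ofReal C1 ^ P * _ * _
          ring

end Pool.Agent.H49.G.LCN
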