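import Pool.Agent.H81.GT.TargetsT

/-!
# Contribution of the points outside the region
-/

set_option autoImplicit false

namespace Pool.Agent.H49.G.TAI

open MeasureTheory Set Pool.Agent.H83.LS Pool.Agent.H81.GT
open Pool.Agent.H83.G (Z TF Rg Cls pl Lo Bp TP)
open scoped ENNReal NNReal RealInnerProductSpace

variable {n : ℕ}

private theorem xz_zt (x : EE (n + 1)) (t : ℝ) : xz (zt x t) = x := by
  unfold xz zt jo pr
  apply PiLp.ext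
  intro i
  refine Fin.lastCases ?_ (fun j => ?_) i
  · simp
    ring
  · simp

private theorem tz_zt (x : EE (n + 1)) (t : ℝ) : tz (zt x t) = t := by
  unfold tz zt
  ring

private theorem norm_le_zt (x : EE (n + 1)) (t : ℝ) : ‖x‖ ≤ 3 * ‖zt x t‖ := by
  have h1 : ‖pr x‖ ≤ ‖zt x t‖ := by
    have h2 : ‖(zt x t).2‖ ≤ ‖zt x t‖ := norm_snd_le _
    exact (norm_fst_le (zt x t).2).trans h2
  have h3 : |x (Fin.last n)| ≤ 2 * ‖zt x t‖ := by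
    have h4 : |(zt x t).1| ≤ ‖zt x t‖ := norm_fst_le (zt x t)
    have h5 : |(zt x t).2.2| ≤ ‖zt x t‖ := (norm_snd_le (zt x t).2).trans (norm_snd_le (zt x t))
    have h6 : x (Fin.last n) = (zt x t).1 - (zt x t).2.2 := by
      unfold zt
      ring
    rw [h6]
    have := abs_sub (zt x t).1 (zt x t).2.2
    linarith
  have h7 : ‖x‖ ^ 2 = ‖pr x‖ ^ 2 + x (Fin.last n) ^ 2 := by
    rw [EuclideanSpace.norm_sq_eq, EuclideanSpace.norm_sq_eq, Fin.sum_univ_castSucc]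
    simp [pr]
  have h8 : 0 ≤ ‖zt x t‖ := norm_nonneg _
  have h9 : x (Fin.last n) ^ 2 ≤ (2 * ‖zt x t‖) ^ 2 := by
    rw [← sq_abs]
    exact pow_le_pow_left₀ (abs_nonneg _) h3 2
  have h10 : ‖pr x‖ ^ 2 ≤ ‖zt x t‖ ^ 2 := pow_le_pow_left₀ (norm_nonneg _) h1 2
  refine le_of_sq_le_sq ?_ (by positivity)
  nlinarith

private theorem kf_ge (x : EE (n + 1)) : ((1 + ‖x‖) ^ (n + 3))⁻¹ ≤ kf (n + 1) x := by
  unfold kf
  have h1 : (((n + 1 : ℕ) : ℝ) + 1) = ((n + 2 : ℕ) : ℝ) := by push_cast; ring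
  rw [h1, Real.rpow_neg (by positivity), Real.rpow_natCast]
  apply inv_anti₀ (by positivity)
  exact pow_le_pow_right₀ (by linarith [norm_nonneg x]) (by omega)

private theorem meas_Th (η : EE n) (s : ℝ) : MeasurableSet (Th η s) := by
  have h1 : MeasurableSet {θ : EE n | ‖θ - η‖ ≤ 4 * s} :=
    measurableSet_le (measurable_id.sub_const η).norm measurable_const
  have h2 : MeasurableSet {θ : EE n | ‖θ‖ ≤ 1 / 3} :=
    measurableSet_le measurable_norm measurable_const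
  exact h1.inter h2

theorem pf_TAI (hPKB : T_PKB) (hPOW : T_POW) : T_TAI := by
  intro n N κ a hn hκ ha
  obtain ⟨C1, hC1, hK⟩ := hPKB n (N + 2 * (n + 3)) κ a hn hκ ha
  obtain ⟨C2, hC2, hP⟩ := hPOW n
  let V1 : ℝ≥0∞ := volume (Metric.closedBall (0 : EE n) (1 / 3))
  have hV1 : V1 ≠ ⊤ := measure_closedBall_lt_top.ne
  let I : ℝ≥0∞ := ∫⁻ x : EE (n + 1), ENNReal.ofReal (kf (n + 1) x)
  have hI : I ≠ ⊤ := kf_fin (n + 1)
  let K : ℝ≥0∞ := ENNReal.ofReal (C1 * (C2 * 3) ^ (n + 3)) * V1 * I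
  have hKf : K ≠ ⊤ := ENNReal.mul_ne_top (ENNReal.mul_ne_top ENNReal.ofReal_ne_top hV1) hI
  refine ⟨K.toReal + 1, by positivity, ?_⟩
  intro η s ρ t U hs hs1 hρ hU hUρ
  have hT : 0 < 1 + |t| + s⁻¹ := by positivity
  have hρ0 : 0 < ρ := by linarith
  -- pointwise bound of the weight
  have hW : ∀ x ∈ U, ∀ θ ∈ Th η s, (Wz s (zt x t) θ ^ (N + 2 * (n + 3)))⁻¹ ≤
      (ρ ^ N)⁻¹ * ((C2 * 3) ^ (n + 3) * (1 + |t| + s⁻¹) ^ (n + 3)) * ((1 + ‖x‖) ^ (n + 3))⁻¹ := by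
    intro x hx θ hθ
    have hWρ := hUρ x hx θ hθ
    have hW0 : 0 < Wz s (zt x t) θ := by linarith
    have h1 := (hP s (zt x t) θ hs hs1 hθ.2).1
    rw [tz_zt] at h1
    have h2 : 1 + ‖x‖ ≤ 3 * (1 + ‖zt x t‖) := by
      have := norm_le_zt x t
      linarith
    have h3 : 1 + ‖x‖ ≤ (C2 * 3) * (1 + |t| + s⁻¹) * Wz s (zt x t) θ ^ 2 := by
      calc 1 + ‖x‖ ≤ 3 * (1 + ‖zt x t‖) := h2
        _ ≤ 3 * (C2 * (1 + |t| + s⁻¹) * Wz s (zt x t) θ ^ 2) := by linarith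
        _ = _ := by ring
    have h4 : (1 + ‖x‖) ^ (n + 3) ≤ (C2 * 3) ^ (n + 3) * (1 + |t| + s⁻¹) ^ (n + 3) *
        Wz s (zt x t) θ ^ (2 * (n + 3)) := by
      calc (1 + ‖x‖) ^ (n + 3) ≤ ((C2 * 3) * (1 + |t| + s⁻¹) * Wz s (zt x t) θ ^ 2) ^ (n + 3) :=
            pow_le_pow_left₀ (by positivity) h3 _
        _ = _ := by rw [mul_pow, mul_pow, ← pow_mul]
    have h5 : ρ ^ N ≤ Wz s (zt x t) θ ^ N := pow_le_pow_left₀ hρ0.le hWρ _
    have h6 : 0 < (1 + ‖x‖) ^ (n + 3) := by positivity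
    have h7 : 0 < Wz s (zt x t) θ ^ (2 * (n + 3)) := by positivity
    rw [pow_add, mul_inv, mul_assoc]
    have h8 : (Wz s (zt x t) θ ^ N)⁻¹ ≤ (ρ ^ N)⁻¹ := inv_anti₀ (by positivity) h5
    have h9 : (Wz s (zt x t) θ ^ (2 * (n + 3)))⁻¹ ≤
        (C2 * 3) ^ (n + 3) * (1 + |t| + s⁻¹) ^ (n + 3) * ((1 + ‖x‖) ^ (n + 3))⁻¹ := by
      rw [← div_eq_mul_inv, le_div_iff₀ h6, inv_mul_le_iff₀ h7]
      calc (1 + ‖x‖) ^ (n + 3) ≤ _ := h4
        _ = _ := by ring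
    exact mul_le_mul h8 h9 (by positivity) (by positivity)
  -- the kernel
  have hker : ∀ x ∈ U, ‖Kt (ac a η s) t x‖ₑ ≤
      ENNReal.ofReal (C1 * ((ρ ^ N)⁻¹ * ((C2 * 3) ^ (n + 3) * (1 + |t| + s⁻¹) ^ (n + 3)))) * V1 *
        ENNReal.ofReal (kf (n + 1) x) := by
    intro x hx
    have h1 := hK η s (zt x t) hs hs1
    rw [tz_zt, xz_zt] at h1
    refine h1.trans ?_
    have h2 : ∫⁻ θ in Th η s, ENNReal.ofReal ((Wz s (zt x t) θ ^ (N + 2 * (n + 3)))⁻¹) ≤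
        ENNReal.ofReal ((ρ ^ N)⁻¹ * ((C2 * 3) ^ (n + 3) * (1 + |t| + s⁻¹) ^ (n + 3)) *
          ((1 + ‖x‖) ^ (n + 3))⁻¹) * V1 := by
      calc _ ≤ ∫⁻ _θ in Th η s, ENNReal.ofReal ((ρ ^ N)⁻¹ * ((C2 * 3) ^ (n + 3) *
            (1 + |t| + s⁻¹) ^ (n + 3)) * ((1 + ‖x‖) ^ (n + 3))⁻¹) :=
            setLIntegral_mono' (meas_Th η s) fun θ hθ => ENNReal.ofReal_le_ofReal (hW x hx θ hθ)
        _ = ENNReal.ofReal ((ρ ^ N)⁻¹ * ((C2 * 3) ^ (n + 3) *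
            (1 + |t| + s⁻¹) ^ (n + 3)) * ((1 + ‖x‖) ^ (n + 3))⁻¹) * volume (Th η s) :=
            setLIntegral_const _ _
        _ ≤ _ := by
            refine mul_le_mul_right (measure_mono fun θ hθ => ?_) _
            rw [mem_closedBall_zero_iff]
            exact hθ.2
    calc ENNReal.ofReal C1 * ∫⁻ θ in Th η s, ENNReal.ofReal
          ((Wz s (zt x t) θ ^ (N + 2 * (n + 3)))⁻¹) ≤
        ENNReal.ofReal C1 * (ENNReal.ofReal ((ρ ^ N)⁻¹ * ((C2 * 3) ^ (n + 3) *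
          (1 + |t| + s⁻¹) ^ (n + 3)) * ((1 + ‖x‖) ^ (n + 3))⁻¹) * V1) := mul_le_mul_right h2 _
      _ ≤ ENNReal.ofReal C1 * (ENNReal.ofReal ((ρ ^ N)⁻¹ * ((C2 * 3) ^ (n + 3) *
          (1 + |t| + s⁻¹) ^ (n + 3)) * kf (n + 1) x) * V1) := by
          refine mul_le_mul_right (mul_le_mul_left (ENNReal.ofReal_le_ofReal ?_) _) _
          exact mul_le_mul_of_nonneg_left (kf_ge x) (by positivity)
      _ = _ := by
          have hk : 0 ≤ kf (n + 1) x := by unfold kf; positivity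
          rw [ENNReal.ofReal_mul (by positivity), ENNReal.ofReal_mul hC1.le]
          ring
  calc ∫⁻ x in U, ‖Kt (ac a η s) t x‖ₑ ≤ ∫⁻ x in U,
      ENNReal.ofReal (C1 * ((ρ ^ N)⁻¹ * ((C2 * 3) ^ (n + 3) * (1 + |t| + s⁻¹) ^ (n + 3)))) * V1 *
        ENNReal.ofReal (kf (n + 1) x) := setLIntegral_mono' hU hker
    _ ≤ ∫⁻ x,
      ENNReal.ofReal (C1 * ((ρ ^ N)⁻¹ * ((C2 * 3) ^ (n + 3) * (1 + |t| + s⁻¹) ^ (n + 3)))) * V1 *
        ENNReal.ofReal (kf (n + 1) x) := setLIntegral_le_lintegral _ _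
    _ = ENNReal.ofReal (C1 * ((ρ ^ N)⁻¹ * ((C2 * 3) ^ (n + 3) * (1 + |t| + s⁻¹) ^ (n + 3)))) *
        V1 * I := lintegral_const_mul' _ _ (ENNReal.mul_ne_top ENNReal.ofReal_ne_top hV1)
    _ = K * ENNReal.ofReal ((1 + |t| + s⁻¹) ^ (n + 3) * (ρ ^ N)⁻¹) := by
        have h1 : C1 * ((ρ ^ N)⁻¹ * ((C2 * 3) ^ (n + 3) * (1 + |t| + s⁻¹) ^ (n + 3))) =
          (C1 * (C2 * 3) ^ (n + 3)) * ((1 + |t| + s⁻¹) ^ (n + 3) * (ρ ^ N)⁻¹) := by ring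
        rw [h1, ENNReal.ofReal_mul (by positivity)]
        simp only [K]
        ring
    _ ≤ ENNReal.ofReal (K.toReal + 1) *
        ENNReal.ofReal ((1 + |t| + s⁻¹) ^ (n + 3) * (ρ ^ N)⁻¹) := by
        refine mul_le_mul_left ?_ _
        rw [← ENNReal.ofReal_toReal hKf]
        exact ENNReal.ofReal_le_ofReal (by rw [ENNReal.toReal_ofReal ENNReal.toReal_nonneg]; linarith)
    _ = _ := by
        rw [← ENNReal.ofReal_mul (by positivity)]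
        congr 1
        ring

end Pool.Agent.H49.G.TAI
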